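import Pool.Agent.H63.AC.Stm

/-!
# Moving a vertical line
-/

set_option autoImplicit false

namespace Pool.Agent.H277.AC

open Complex MeasureTheory Filter Topology Pool.Agent.H63.AC

/-- the power `3/2` is small compared with the square -/
theorem rpow_le (x ε : ℝ) (hx : 0 ≤ x) (hε : 0 < ε) :
    x ^ (3 / 2 : ℝ) ≤ ε * x ^ 2 + ε⁻¹ ^ 3 := by
  rcases le_total (ε⁻¹ ^ 2) x with h | h
  · have hx0 : 0 < x := lt_of_lt_of_le (by positivity) h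
    have h1 : ε⁻¹ ≤ x ^ (1 / 2 : ℝ) := by
      have h2 := Real.rpow_le_rpow (by positivity) h (show (0 : ℝ) ≤ 1 / 2 by norm_num)
      rwa [← Real.sqrt_eq_rpow, Real.sqrt_sq (by positivity)] at h2
    have h3 : x ^ 2 = x ^ (3 / 2 : ℝ) * x ^ (1 / 2 : ℝ) := by
      rw [← Real.rpow_add hx0, ← Real.rpow_natCast]
      norm_num
    have h4 : 0 ≤ x ^ (3 / 2 : ℝ) := Real.rpow_nonneg hx _
    have h5 : 1 ≤ ε * x ^ (1 / 2 : ℝ) := by
      have := mul_le_mul_of_nonneg_left h1 hε.le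
      rwa [mul_inv_cancel₀ hε.ne'] at this
    have h6 : x ^ (3 / 2 : ℝ) * 1 ≤ x ^ (3 / 2 : ℝ) * (ε * x ^ (1 / 2 : ℝ)) :=
      mul_le_mul_of_nonneg_left h5 h4
    have h7 : 0 ≤ ε⁻¹ ^ 3 := by positivity
    rw [h3]
    linarith
  · have h1 : x ^ (3 / 2 : ℝ) ≤ (ε⁻¹ ^ 2) ^ (3 / 2 : ℝ) :=
      Real.rpow_le_rpow hx h (by norm_num)
    have h2 : (ε⁻¹ ^ 2) ^ (3 / 2 : ℝ) = ε⁻¹ ^ 3 := by
      rw [← Real.rpow_natCast, ← Real.rpow_mul (by positivity), ← Real.rpow_natCast]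
      norm_num
    rw [h2] at h1
    have h3 : 0 ≤ ε * x ^ 2 := by positivity
    linarith

theorem norm_wt (T H x y : ℝ) : ‖wt T H (1 - ((x : ℂ) + y * I))‖ =
    Real.exp (((1 - x) ^ 2 - (y + T) ^ 2) / H ^ 2) := by
  unfold wt
  rw [Complex.norm_exp]
  congr 1
  have h1 : (1 - ((x : ℂ) + y * I) - I * T) ^ 2 / (H : ℂ) ^ 2 =
      ((((1 - x) ^ 2 - (y + T) ^ 2) / H ^ 2 : ℝ) : ℂ) +
      ((-(2 * (1 - x) * (y + T)) / H ^ 2 : ℝ) : ℂ) * I := by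
    push_cast
    have h2 : (1 - ((x : ℂ) + y * I) - I * T) ^ 2 =
        (1 - x) ^ 2 + (y + T) ^ 2 * I ^ 2 - 2 * (1 - x) * (y + T) * I := by ring
    rw [h2, I_sq]
    ring
  rw [h1, Complex.add_re, Complex.ofReal_re, Complex.re_ofReal_mul, Complex.I_re, mul_zero,
    add_zero]

/-- the decay in vertical strips -/
theorem decay (U : ℂ → ℂ) (K : ℝ) (hU : ∀ s, ‖U s‖ ≤ Real.exp (K * (1 + ‖s‖) ^ (3 / 2 : ℝ)))
    (X T H : ℝ) (_ : 0 ≤ X) (hH : 1 ≤ H) : ∃ C : ℝ, 0 ≤ C ∧ ∀ x y : ℝ, |x| ≤ X →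
      ‖U ((x : ℂ) + y * I) * wt T H (1 - ((x : ℂ) + y * I))‖ ≤
        C * Real.exp (-(1 / (4 * H ^ 2)) * y ^ 2) := by
  have hH0 : 0 < H := by linarith
  let ε : ℝ := 1 / (8 * H ^ 2 * (|K| + 1))
  have hK : 0 ≤ |K| := abs_nonneg K
  have hε : 0 < ε := by positivity
  refine ⟨Real.exp (|K| * (ε * (2 * (1 + X) ^ 2) + ε⁻¹ ^ 3) + ((1 + X) ^ 2 + T ^ 2) / H ^ 2),
    (Real.exp_pos _).le, fun x y hx => ?_⟩
  rw [norm_mul, norm_wt, ← Real.exp_add]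
  have h1 : ‖(x : ℂ) + y * I‖ ≤ X + |y| := by
    refine (norm_add_le _ _).trans ?_
    rw [norm_mul, Complex.norm_real, Complex.norm_real, norm_I, mul_one, Real.norm_eq_abs,
      Real.norm_eq_abs]
    linarith
  have h2 : (1 + ‖(x : ℂ) + y * I‖) ^ 2 ≤ 2 * (1 + X) ^ 2 + 2 * y ^ 2 := by
    have h3 : (1 + ‖(x : ℂ) + y * I‖) ^ 2 ≤ ((1 + X) + |y|) ^ 2 :=
      pow_le_pow_left₀ (by positivity) (by linarith) 2
    have h4 : y ^ 2 = |y| ^ 2 := (sq_abs y).symm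
    nlinarith [sq_nonneg ((1 + X) - |y|)]
  have h3 := rpow_le (1 + ‖(x : ℂ) + y * I‖) ε (by positivity) hε
  have h4 : K * (1 + ‖(x : ℂ) + y * I‖) ^ (3 / 2 : ℝ) ≤
      |K| * (ε * (2 * (1 + X) ^ 2 + 2 * y ^ 2) + ε⁻¹ ^ 3) := by
    have h5 : 0 ≤ (1 + ‖(x : ℂ) + y * I‖) ^ (3 / 2 : ℝ) := Real.rpow_nonneg (by positivity) _
    have h6 : K * (1 + ‖(x : ℂ) + y * I‖) ^ (3 / 2 : ℝ) ≤
        |K| * (1 + ‖(x : ℂ) + y * I‖) ^ (3 / 2 : ℝ) :=
      mul_le_mul_of_nonneg_right (le_abs_self K) h5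
    refine h6.trans (mul_le_mul_of_nonneg_left ?_ hK)
    have h7 := mul_le_mul_of_nonneg_left h2 hε.le
    linarith
  have h5 : |K| * (ε * (2 * y ^ 2)) ≤ 1 / (4 * H ^ 2) * y ^ 2 := by
    have h6 : |K| * ε ≤ 1 / (8 * H ^ 2) := by
      have h7 : |K| * ε = |K| / (|K| + 1) * (1 / (8 * H ^ 2)) := by
        simp only [ε]
        field_simp
      rw [h7]
      have h8 : |K| / (|K| + 1) ≤ 1 := by
        rw [div_le_one (by positivity)]
        linarith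
      exact mul_le_of_le_one_left (by positivity) h8
    have h9 := mul_le_mul_of_nonneg_right h6 (show (0 : ℝ) ≤ 2 * y ^ 2 by positivity)
    have h10 : 1 / (8 * H ^ 2) * (2 * y ^ 2) = 1 / (4 * H ^ 2) * y ^ 2 := by
      field_simp
      ring
    linarith
  have h6 : ((1 - x) ^ 2 - (y + T) ^ 2) / H ^ 2 ≤
      ((1 + X) ^ 2 + T ^ 2) / H ^ 2 - 2 * (1 / (4 * H ^ 2) * y ^ 2) := by
    have h7 : (1 - x) ^ 2 ≤ (1 + X) ^ 2 := by
      have h8 := abs_le.1 hx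
      nlinarith
    have h9 : y ^ 2 / 2 ≤ (y + T) ^ 2 + T ^ 2 := by nlinarith [sq_nonneg (y + 2 * T)]
    have h10 : ((1 + X) ^ 2 + T ^ 2) / H ^ 2 - 2 * (1 / (4 * H ^ 2) * y ^ 2) =
        ((1 + X) ^ 2 + T ^ 2 - y ^ 2 / 2) / H ^ 2 := by
      field_simp
      ring
    rw [h10]
    exact div_le_div_of_nonneg_right (by linarith) (by positivity)
  have h7 : K * (1 + ‖(x : ℂ) + y * I‖) ^ (3 / 2 : ℝ) +
      ((1 - x) ^ 2 - (y + T) ^ 2) / H ^ 2 ≤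
      |K| * (ε * (2 * (1 + X) ^ 2) + ε⁻¹ ^ 3) + ((1 + X) ^ 2 + T ^ 2) / H ^ 2 +
        -(1 / (4 * H ^ 2)) * y ^ 2 := by
    have h8 : |K| * (ε * (2 * (1 + X) ^ 2 + 2 * y ^ 2) + ε⁻¹ ^ 3) =
        |K| * (ε * (2 * (1 + X) ^ 2) + ε⁻¹ ^ 3) + |K| * (ε * (2 * y ^ 2)) := by ring
    rw [h8] at h4
    linarith
  calc ‖U ((x : ℂ) + y * I)‖ * Real.exp (((1 - x) ^ 2 - (y + T) ^ 2) / H ^ 2)
      ≤ Real.exp (K * (1 + ‖(x : ℂ) + y * I‖) ^ (3 / 2 : ℝ)) *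
        Real.exp (((1 - x) ^ 2 - (y + T) ^ 2) / H ^ 2) :=
        mul_le_mul_of_nonneg_right (hU _) (Real.exp_pos _).le
    _ = Real.exp (K * (1 + ‖(x : ℂ) + y * I‖) ^ (3 / 2 : ℝ) +
        ((1 - x) ^ 2 - (y + T) ^ 2) / H ^ 2) := (Real.exp_add _ _).symm
    _ ≤ _ := Real.exp_le_exp.2 h7

theorem t_shift : S_shift := by
  intro U K hU hb a c T H hH
  have hH0 : 0 < H := by linarith
  let F : ℂ → ℂ := fun v => U v * wt T H (1 - v)
  have hF : Differentiable ℂ F := by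
    refine hU.mul ?_
    unfold wt
    fun_prop
  obtain ⟨C, hC, hdec⟩ := decay U K hb (max |a| |c|) T H (le_max_of_le_left (abs_nonneg a)) hH
  have hb0 : 0 < 1 / (4 * H ^ 2) := by positivity
  have hint : ∀ x : ℝ, |x| ≤ max |a| |c| → Integrable fun y : ℝ => F ((x : ℂ) + y * I) := by
    intro x hx
    refine Integrable.mono' ((integrable_exp_neg_mul_sq hb0).const_mul C) ?_
      (Eventually.of_forall fun y => hdec x y hx)
    refine Continuous.aestronglyMeasurable ?_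
    exact hF.continuous.comp (by fun_prop)
  have hlim : ∀ x : ℝ, |x| ≤ max |a| |c| →
      Tendsto (fun R : ℝ => ∫ y in (-R)..R, F ((x : ℂ) + y * I)) atTop
        (𝓝 (∫ y : ℝ, F ((x : ℂ) + y * I))) := fun x hx =>
    intervalIntegral_tendsto_integral (hint x hx) tendsto_neg_atTop_atBot tendsto_id
  have hexp : Tendsto (fun R : ℝ => C * Real.exp (-(1 / (4 * H ^ 2)) * R ^ 2) * |c - a|) atTop
      (𝓝 0) := by
    have h1 : Tendsto (fun R : ℝ => Real.exp (-(1 / (4 * H ^ 2)) * R ^ 2)) atTop (𝓝 0) := by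
      refine Real.tendsto_exp_atBot.comp ?_
      have h2 : Tendsto (fun R : ℝ => 1 / (4 * H ^ 2) * R ^ 2) atTop atTop :=
        (tendsto_pow_atTop two_ne_zero).const_mul_atTop hb0
      have h3 := tendsto_neg_atTop_atBot.comp h2
      refine h3.congr fun R => ?_
      simp only [Function.comp]
      ring
    have h2 := (h1.const_mul C).mul_const |c - a|
    simpa using h2
  have hseg : ∀ x ∈ Set.uIoc a c, |x| ≤ max |a| |c| := by
    intro x hx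
    have h1 := Set.uIoc_subset_uIcc hx
    rw [Set.mem_uIcc] at h1
    rcases h1 with h1 | h1
    · exact abs_le_max_abs_abs h1.1 h1.2
    · rw [max_comm]
      exact abs_le_max_abs_abs h1.1 h1.2
  have hhor : ∀ σ : ℝ, σ ^ 2 = 1 →
      Tendsto (fun R : ℝ => ∫ x in a..c, F ((x : ℂ) + ((σ * R : ℝ) : ℂ) * I)) atTop (𝓝 0) := by
    intro σ hσ
    refine squeeze_zero_norm (fun R => ?_) hexp
    refine intervalIntegral.norm_integral_le_of_norm_le_const fun x hx => ?_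
    have h1 := hdec x (σ * R) (hseg x hx)
    rw [mul_pow, hσ, one_mul] at h1
    exact h1
  have hrect : ∀ R : ℝ, (∫ x in a..c, F ((x : ℂ) + ((-1 * R : ℝ) : ℂ) * I)) -
      (∫ x in a..c, F ((x : ℂ) + ((1 * R : ℝ) : ℂ) * I)) +
      I * (∫ y in (-R)..R, F ((c : ℂ) + y * I)) -
      I * (∫ y in (-R)..R, F ((a : ℂ) + y * I)) = 0 := by
    intro R
    have h1 := Complex.integral_boundary_rect_eq_zero_of_differentiableOn F
      (⟨a, -R⟩ : ℂ) (⟨c, R⟩ : ℂ) hF.differentiableOn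
    simp only [smul_eq_mul] at h1
    rw [neg_one_mul, one_mul]
    exact h1
  have hall : Tendsto (fun R : ℝ => (∫ x in a..c, F ((x : ℂ) + ((-1 * R : ℝ) : ℂ) * I)) -
      (∫ x in a..c, F ((x : ℂ) + ((1 * R : ℝ) : ℂ) * I)) +
      I * (∫ y in (-R)..R, F ((c : ℂ) + y * I)) -
      I * (∫ y in (-R)..R, F ((a : ℂ) + y * I))) atTop
      (𝓝 (0 - 0 + I * (∫ y : ℝ, F ((c : ℂ) + y * I)) - I * (∫ y : ℝ, F ((a : ℂ) + y * I)))) :=
    (((hhor (-1) (by norm_num)).sub (hhor 1 (by norm_num))).add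
      ((hlim c (le_max_right _ _)).const_mul I)).sub ((hlim a (le_max_left _ _)).const_mul I)
  have h0 := tendsto_nhds_unique (hall.congr hrect) tendsto_const_nhds
  rw [sub_zero, zero_add, ← mul_sub] at h0
  have h1 := (mul_eq_zero.1 h0).resolve_left I_ne_zero
  exact (sub_eq_zero.1 h1).symm

end Pool.Agent.H277.AC
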